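import Pool.Agent.Helper47_CN2.Xdec

/-!
Squad CN2: module H_SC, the rank modulo p
-/

noncomputable section

namespace Pool.Agent.CN2.H47

open Pool.Agent.H25Cong Pool.Agent.CON Pool.Agent.CN2

theorem gr1_length (T : Ty) (s : ℤ) : (gr1 (T, s)).length = T.rk := by
  simp [gr1, mat]

theorem h_sc (hGR : T_GR) (hVAL : E_VAL) : H_SC := by
  intro M _ b k C s τ p hb hC hp hle hI
  classical
  have : Fact p.Prime := ⟨hp⟩
  obtain ⟨c, _, hc⟩ := hI
  have hG : ∀ i, ∃ g : ℕ → M, (∀ j < (τ i).rk, g j ∈ AddSubgroup.closure (C i)) ∧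
      ∀ x ∈ AddSubgroup.closure (C i), x ∈ AddSubgroup.closure (g '' {j | j < (τ i).rk}) := by
    intro i
    obtain ⟨g, h1, h2, _⟩ := hGR M b (C i) (s i) (τ i) hb (hC.irr i) (hC.ty i)
    rw [gr1_length] at h1 h2
    exact ⟨g, h1, h2⟩
  choose g hg1 hg2 using hG
  -- the linear map
  let J : Type := (i : Fin k) × Fin (if (p : ℤ) ∣ s i then 0 else (τ i).rk)
  have hJ : Fintype.card J ≤ 3 := by
    simp only [J, Fintype.card_sigma, Fintype.card_fin]
    exact hle
  let f : (Fin 4 → ZMod p) →ₗ[ZMod p] (J → ZMod p) :=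
    { toFun := fun a j => ∑ l, a l * ((b (c l) (g j.1 j.2) : ℤ) : ZMod p)
      map_add' := by
        intro a a'
        funext j
        simp only [Pi.add_apply, add_mul, Finset.sum_add_distrib]
      map_smul' := by
        intro r a
        funext j
        simp only [Pi.smul_apply, smul_eq_mul, RingHom.id_apply, Finset.mul_sum, mul_assoc] }
  have hker : LinearMap.ker f ≠ ⊥ := by
    apply LinearMap.ker_ne_bot_of_finrank_lt
    rw [Module.finrank_pi, Module.finrank_pi, Fintype.card_fin]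
    omega
  obtain ⟨a, ha, ha0⟩ := (Submodule.ne_bot_iff _).mp hker
  rw [LinearMap.mem_ker] at ha
  -- lift
  have hlift : ∀ l, ∃ z : ℤ, (z : ZMod p) = a l := fun l => ZMod.intCast_surjective (a l)
  choose z hz using hlift
  apply ha0
  funext l
  rw [← hz l, Pi.zero_apply, ZMod.intCast_zmod_eq_zero_iff_dvd]
  refine hc z ?_ l
  intro y _
  set Z : M := ∑ i, z i • c i with hZ
  obtain ⟨Zc, hZc, hZe⟩ := decomp hC Z
  obtain ⟨yc, hyc, hye⟩ := decomp hC y
  rw [hye, hb.sum_right]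
  apply Finset.dvd_sum
  intro i _
  by_cases hi : (p : ℤ) ∣ s i
  · rw [hZe, sum_comp hb hC hZc (hyc i)]
    exact hi.trans (((hVAL M b (C i) (s i) hb (hC.irr i)) (Zc i) (hZc i)).1 (yc i) (hyc i))
  · rw [hb.symm]
    refine hb.closure_dvd ?_ (yc i) (hg2 i _ (hyc i))
    rintro _ ⟨j, hj, rfl⟩
    have hj' : j < (if (p : ℤ) ∣ s i then 0 else (τ i).rk) := by
      rw [if_neg hi]
      exact hj
    have h1 := congrFun ha (⟨i, ⟨j, hj'⟩⟩ : J)
    change ∑ l, a l * ((b (c l) (g i j) : ℤ) : ZMod p) = 0 at h1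
    rw [hb.symm, ← ZMod.intCast_zmod_eq_zero_iff_dvd, hZ, hb.sum_left, Int.cast_sum, ← h1]
    refine Finset.sum_congr rfl fun l _ => ?_
    rw [hb.zsmul_left, Int.cast_mul, hz]

end Pool.Agent.CN2.H47

end
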