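import Pool.Agent.Helper17_CON.GH4
import Pool.Agent.Helper25_CN2.Stmts

/-! Module T_HN4 (MP_6d18f4_al), from the proof of G_HALF 4 (helper17) -/

set_option autoImplicit false

namespace Pool.Agent.CN2.H47

open Pool.Agent.CON Pool.Agent.CON.H17 Pool.Agent.CN2

theorem t_hn4 (_h1 : G_EXT) (_h2 : G_TYP) (h3 : G_FLP) : T_HN 4 := by
  intro M _ b C s F α hb hC hF hmax hα hhalf
  obtain ⟨ε, hε, hεs⟩ := hhalf
  obtain ⟨hF1, hF2, hF3⟩ := hF
  have hs := hC.pos
  obtain ⟨f, hf⟩ : ∃ f : Fin 4 → M, f = fun i => ε i • F i := ⟨_, rfl⟩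
  have hεε : ∀ i, ε i * ε i = 1 := fun i => by rcases hε i with h | h <;> rw [h] <;> norm_num
  have f1 : ∀ i, b (f i) (f i) = 4 * s := by
    intro i
    rw [hf]; simp only
    rw [smul_l hb, smul_r hb, hF1, ← mul_assoc, hεε, one_mul]
  have f2 : ∀ i j, i ≠ j → b (f i) (f j) = 0 := by
    intro i j hij
    rw [hf]; simp only
    rw [smul_l hb, smul_r hb, hF2 i j hij]; ring
  have f3 : ∀ i, b α (f i) = s := by
    intro i
    rw [hf]; simp only
    rw [smul_r hb, hεs, ← mul_assoc, hεε, one_mul]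
  have hαα := hC.norm α hα
  -- half sums of the frame
  have kF : ∀ i j, i ≠ j → K C (F i + F j) ∧ K C (F i - F j) := fun i j hij => hF3 i j hij
  have kf : ∀ i j, i ≠ j → K C (f i + f j) ∧ K C (f i - f j) := by
    intro i j hij
    obtain ⟨a1, a2⟩ := kF i j hij
    have a3 := a1.neg hC
    have a4 := a2.neg hC
    rw [hf]; simp only
    rcases hε i with h | h <;> rcases hε j with h' | h' <;> rw [h, h'] <;>
      simp only [one_smul, neg_smul]
    · exact ⟨a1, a2⟩
    · refine ⟨?_, ?_⟩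
      · rw [← sub_eq_add_neg]; exact a2
      · rw [sub_neg_eq_add]; exact a1
    · refine ⟨?_, ?_⟩
      · have : -F i + F j = -(F i - F j) := by abel
        rw [this]; exact a4
      · have : -F i - F j = -(F i + F j) := by abel
        rw [this]; exact a3
    · refine ⟨?_, ?_⟩
      · have : -F i + -F j = -(F i + F j) := by abel
        rw [this]; exact a3
      · have : -F i - -F j = -(F i - F j) := by abel
        rw [this]; exact a4
  -- flips
  have flip : ∀ i j, i ≠ j → ∃ w ∈ C, (2 : ℤ) • w = (2 : ℤ) • α - f i - f j := by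
    intro i j hij
    obtain ⟨w, hw, h4, -⟩ := h3 M b C s 4 F α ε i j hb hC ⟨hF1, hF2, hF3⟩ hα hε hεs hij
    exact ⟨w, hw, by rw [h4, hf]⟩
  obtain ⟨a01, m01, t01, u01⟩ := h3 M b C s 4 F α ε 0 1 hb hC ⟨hF1, hF2, hF3⟩ hα hε hεs (by decide)
  obtain ⟨a23, m23, t23⟩ := flip 2 3 (by decide)
  obtain ⟨a02, m02, t02⟩ := flip 0 2 (by decide)
  obtain ⟨a13, m13, t13⟩ := flip 1 3 (by decide)
  obtain ⟨a03, m03, t03⟩ := flip 0 3 (by decide)
  obtain ⟨a12, m12, t12⟩ := flip 1 2 (by decide)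
  obtain ⟨a4, m4, t4, -⟩ := h3 M b C s 4 F a01 (fun l => if l = 0 ∨ l = 1 then - ε l else ε l) 2 3 hb
    hC ⟨hF1, hF2, hF3⟩ m01 (by
      intro i
      split_ifs
      · rcases hε i with h | h <;> rw [h] <;> simp
      · exact hε i) (by
      intro i
      rw [u01 i]) (by decide)
  have t01' : (2 : ℤ) • a01 = (2 : ℤ) • α - f 0 - f 1 := by rw [t01, hf]
  have t4' : (2 : ℤ) • a4 = (2 : ℤ) • α - f 0 - f 1 - f 2 - f 3 := by
    rw [t4, t01', hf]; simp
  clear t01 t4 u01 flip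
  -- the new frame
  obtain ⟨g, hg⟩ : ∃ g : Fin 5 → M, g = ![α - a4, a23 - a01, a13 - a02, a12 - a03, α + a4] :=
    ⟨_, rfl⟩
  have g0 : (2 : ℤ) • g 0 = (1 : ℤ) • f 0 + (1 : ℤ) • f 1 + (1 : ℤ) • f 2 + (1 : ℤ) • f 3 +
      (0 : ℤ) • α := by
    rw [hg]; simp only [Matrix.cons_val]
    rw [smul_sub, t4']; module
  have g1 : (2 : ℤ) • g 1 = (1 : ℤ) • f 0 + (1 : ℤ) • f 1 + (-1 : ℤ) • f 2 + (-1 : ℤ) • f 3 +
      (0 : ℤ) • α := by
    rw [hg]; simp only [Matrix.cons_val]
    rw [smul_sub, t23, t01']; module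
  have g2 : (2 : ℤ) • g 2 = (1 : ℤ) • f 0 + (-1 : ℤ) • f 1 + (1 : ℤ) • f 2 + (-1 : ℤ) • f 3 +
      (0 : ℤ) • α := by
    rw [hg]; simp only [Matrix.cons_val]
    rw [smul_sub, t13, t02]; module
  have g3 : (2 : ℤ) • g 3 = (1 : ℤ) • f 0 + (-1 : ℤ) • f 1 + (-1 : ℤ) • f 2 + (1 : ℤ) • f 3 +
      (0 : ℤ) • α := by
    rw [hg]; simp only [Matrix.cons_val]
    rw [smul_sub, t12, t03]; module
  have g4 : (2 : ℤ) • g 4 = (-1 : ℤ) • f 0 + (-1 : ℤ) • f 1 + (-1 : ℤ) • f 2 + (-1 : ℤ) • f 3 +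
      (4 : ℤ) • α := by
    rw [hg]; simp only [Matrix.cons_val]
    rw [smul_add, t4']; module
  clear hg
  have four : ∀ x y : M, 4 * b x y = b ((2 : ℤ) • x) ((2 : ℤ) • y) := by
    intro x y; rw [smul_l hb, smul_r hb]; ring
  have G := gram hb f1 f2 f3 hαα
  have nrm : ∀ i, b (g i) (g i) = 4 * s := by
    intro i
    have h5 := four (g i) (g i)
    fin_cases i <;> simp only [Fin.zero_eta, Fin.mk_one, Fin.reduceFinMk] at h5 ⊢
    · rw [g0, G] at h5; linarith
    · rw [g1, G] at h5; linarith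
    · rw [g2, G] at h5; linarith
    · rw [g3, G] at h5; linarith
    · rw [g4, G] at h5; linarith
  have orth : ∀ i j, i ≠ j → b (g i) (g j) = 0 := by
    have key : ∀ i j, i < j → b (g i) (g j) = 0 := by
      intro i j hij
      have h5 := four (g i) (g j)
      fin_cases i <;> fin_cases j <;>
        simp only [Fin.zero_eta, Fin.mk_one, Fin.reduceFinMk, Fin.reduceLT, lt_self_iff_false,
          Fin.not_lt_zero] at h5 hij ⊢ <;>
        first | contradiction | skip
      · rw [g0, g1, G] at h5; linarith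
      · rw [g0, g2, G] at h5; linarith
      · rw [g0, g3, G] at h5; linarith
      · rw [g0, g4, G] at h5; linarith
      · rw [g1, g2, G] at h5; linarith
      · rw [g1, g3, G] at h5; linarith
      · rw [g1, g4, G] at h5; linarith
      · rw [g2, g3, G] at h5; linarith
      · rw [g2, g4, G] at h5; linarith
      · rw [g3, g4, G] at h5; linarith
    intro i j hij
    rcases lt_or_gt_of_ne hij with h | h
    · exact key i j h
    · rw [hb.symm]; exact key j i h
  have kk : ∀ x y : M, (2 : ℤ) • x = (2 : ℤ) • y → K C y → K C x := by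
    intro x y hxy hy
    rw [two_inj hb hxy]; exact hy
  have half : ∀ i j, i ≠ j → K C (g i + g j) ∧ K C (g i - g j) := by
    have key : ∀ i j, i < j → K C (g i + g j) ∧ K C (g i - g j) := by
      intro i j hij
      fin_cases i <;> fin_cases j <;>
        simp only [Fin.zero_eta, Fin.mk_one, Fin.reduceFinMk, Fin.reduceLT, lt_self_iff_false,
          Fin.not_lt_zero] at hij ⊢ <;>
        first | contradiction | skip
      · refine ⟨kk _ _ ?_ (kf 0 1 (by decide)).1, kk _ _ ?_ (kf 2 3 (by decide)).1⟩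
        · rw [smul_add, g0, g1]; module
        · rw [smul_sub, g0, g1]; module
      · refine ⟨kk _ _ ?_ (kf 0 2 (by decide)).1, kk _ _ ?_ (kf 1 3 (by decide)).1⟩
        · rw [smul_add, g0, g2]; module
        · rw [smul_sub, g0, g2]; module
      · refine ⟨kk _ _ ?_ (kf 0 3 (by decide)).1, kk _ _ ?_ (kf 1 2 (by decide)).1⟩
        · rw [smul_add, g0, g3]; module
        · rw [smul_sub, g0, g3]; module
      · refine ⟨kk _ _ ?_ (⟨α, hα, rfl⟩ : K C ((2 : ℤ) • α)), kk _ _ ?_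
          (K.neg hC ⟨a4, m4, t4'⟩)⟩
        · rw [smul_add, g0, g4]; module
        · rw [smul_sub, g0, g4]; module
      · refine ⟨kk _ _ ?_ (kf 0 3 (by decide)).2, kk _ _ ?_ (kf 1 2 (by decide)).2⟩
        · rw [smul_add, g1, g2]; module
        · rw [smul_sub, g1, g2]; module
      · refine ⟨kk _ _ ?_ (kf 0 2 (by decide)).2, kk _ _ ?_ (kf 1 3 (by decide)).2⟩
        · rw [smul_add, g1, g3]; module
        · rw [smul_sub, g1, g3]; module
      · refine ⟨kk _ _ ?_ (⟨a23, m23, t23⟩ : K C _), kk _ _ ?_ (K.neg hC ⟨a01, m01, t01'⟩)⟩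
        · rw [smul_add, g1, g4]; module
        · rw [smul_sub, g1, g4]; module
      · refine ⟨kk _ _ ?_ (kf 0 1 (by decide)).2, kk _ _ ?_ (kf 2 3 (by decide)).2⟩
        · rw [smul_add, g2, g3]; module
        · rw [smul_sub, g2, g3]; module
      · refine ⟨kk _ _ ?_ (⟨a13, m13, t13⟩ : K C _), kk _ _ ?_ (K.neg hC ⟨a02, m02, t02⟩)⟩
        · rw [smul_add, g2, g4]; module
        · rw [smul_sub, g2, g4]; module
      · refine ⟨kk _ _ ?_ (⟨a12, m12, t12⟩ : K C _), kk _ _ ?_ (K.neg hC ⟨a03, m03, t03⟩)⟩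
        · rw [smul_add, g3, g4]; module
        · rw [smul_sub, g3, g4]; module
    intro i j hij
    rcases lt_or_gt_of_ne hij with h | h
    · exact key i j h
    · obtain ⟨h6, h7⟩ := key j i h
      refine ⟨by rw [add_comm]; exact h6, ?_⟩
      have := h7.neg hC
      rwa [neg_sub] at this
  exact hmax 5 (by norm_num) g ⟨nrm, orth, fun i j hij => half i j hij⟩

end Pool.Agent.CN2.H47
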