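import Pool.Agent.Helper34_CON.GA
import Pool.Agent.Helper25_CN2.Stmts

/-!
Squad CN2: module T_HN7, from the proof of G_HALF 7 (helper34)
-/

noncomputable section

namespace Pool.Agent.CN2.H47

open Pool.Agent.CON Pool.Agent.CON.H34 Pool.Agent.CN2

theorem t_hn7 (hE : G_EXT) (_hT : G_TYP) (hP : G_FLP) : T_HN 7 := by
  intro M _ b C s F α hb hC hF hmax hα hhalf
  obtain ⟨ε, hε, hαF⟩ := hhalf
  obtain ⟨α1, h1, e1, p1⟩ := hP M b C s 7 F α ε 1 2 hb hC hF hα hε hαF (by decide)
  obtain ⟨α2, h2, e2, p2⟩ := hP M b C s 7 F α1 _ 3 4 hb hC hF h1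
    (by intro i; split_ifs <;> rcases hε i with h | h <;> simp [h]) p1 (by decide)
  obtain ⟨α3, h3, e3, p3⟩ := hP M b C s 7 F α2 _ 5 6 hb hC hF h2
    (by intro i; split_ifs <;> rcases hε i with h | h <;> simp [h]) p2 (by decide)
  have sq : ∀ i, ε i * ε i = 1 := by
    intro i
    rcases hε i with h | h <;> rw [h] <;> ring
  have hab : b α α3 = -s := by
    have q1 : b α ((2 : ℤ) • α1) = 2 * s := by
      rw [e1, hb.sub_right, hb.sub_right, hb.zsmul_right, hb.zsmul_right, hb.zsmul_right,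
        hC.norm α hα, hαF, hαF]
      linear_combination (-s) * sq 1 - s * sq 2
    have q2 : b α ((2 : ℤ) • α2) = 0 := by
      rw [e2, hb.sub_right, hb.sub_right, q1, hb.zsmul_right, hb.zsmul_right, hαF, hαF]
      simp only [show ¬ ((3 : Fin 7) = 1 ∨ (3 : Fin 7) = 2) by decide,
        show ¬ ((4 : Fin 7) = 1 ∨ (4 : Fin 7) = 2) by decide, if_false]
      linear_combination (-s) * sq 3 - s * sq 4
    have q3 : b α ((2 : ℤ) • α3) = -(2 * s) := by
      rw [e3, hb.sub_right, hb.sub_right, q2, hb.zsmul_right, hb.zsmul_right, hαF, hαF]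
      simp only [show ¬ ((5 : Fin 7) = 1 ∨ (5 : Fin 7) = 2) by decide,
        show ¬ ((6 : Fin 7) = 1 ∨ (6 : Fin 7) = 2) by decide,
        show ¬ ((5 : Fin 7) = 3 ∨ (5 : Fin 7) = 4) by decide,
        show ¬ ((6 : Fin 7) = 3 ∨ (6 : Fin 7) = 4) by decide, if_false]
      linear_combination (-s) * sq 5 - s * sq 6
    rw [hb.zsmul_right] at q3
    omega
  have hmem : α + α3 ∈ C := add_mem hb hC hα h3 hab
  obtain ⟨F', hF'⟩ := hE M b C s 7 F (α + α3) 0 hb hC (by norm_num) hF hmem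
    (by
      have h := p3 0
      simp only [show ¬ ((0 : Fin 7) = 1 ∨ (0 : Fin 7) = 2) by decide,
        show ¬ ((0 : Fin 7) = 3 ∨ (0 : Fin 7) = 4) by decide,
        show ¬ ((0 : Fin 7) = 5 ∨ (0 : Fin 7) = 6) by decide, if_false] at h
      rw [hb.add_left, h, hαF]
      rcases hε 0 with h | h <;> rw [h]
      · left; ring
      · right; ring)
    (by
      intro j hj
      rw [hb.add_left, p3 j, hαF]
      fin_cases j
      · exact absurd rfl hj
      all_goals simp)
  exact hmax 8 (by norm_num) F' hF'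

end Pool.Agent.CN2.H47

end
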