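import Pool.Agent.Helper9_CON.GRk
import Pool.Agent.Helper25_CN2.Stmts

/-!
Squad CN2: module T_RK, the rank of a component of a given type
-/

noncomputable section

namespace Pool.Agent.CN2.H47

open Pool.Agent.H25Cong Pool.Agent.CON Pool.Agent.CN2

variable {M : Type} [AddCommGroup M] {b : M → M → ℤ} {C : Set M} {s : ℤ}

theorem rk_mono {k k' : ℕ} (h : Rk C k) (hk : k' ≤ k) : Rk C k' := by
  obtain ⟨c, hc, hl⟩ := h
  exact ⟨fun i => c (Fin.castLE hk i), fun i => hc _, hl.comp _ (Fin.castLE_injective hk)⟩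

theorem dfam' (hb : PD b) (hs : 0 < s) {m : ℕ} {F : Fin (m + 2) → M}
    (hF : DFr b C s (m + 2) F) : ∃ c : Fin (m + 2) → M, (∀ i, c i ∈ C) ∧
      LinearIndependent ℤ c ∧ ∀ i, ∃ y : Fin (m + 2) → ℤ, (2 : ℤ) • c i = ∑ j, y j • F j := by
  classical
  have h01 : (0 : Fin (m + 2)) ≠ 1 := by simp
  have hex : ∀ i : Fin (m + 2), ∃ w ∈ C, (2 : ℤ) • w = if i = 0 then F 0 + F 1 else F 0 - F i := by
    intro i
    by_cases hi : i = 0
    · rw [if_pos hi]
      exact (hF.2.2 0 1 h01).1
    · rw [if_neg hi]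
      exact (hF.2.2 0 i (Ne.symm hi)).2
  choose c hc h2 using hex
  refine ⟨c, hc, ?_, ?_⟩
  · rw [Fintype.linearIndependent_iff]
    intro z hz
    have hz2 : ∑ i, z i • ((2 : ℤ) • c i) = 0 := by
      have : ∑ i, z i • ((2 : ℤ) • c i) = (2 : ℤ) • ∑ i, z i • c i := by
        rw [Finset.smul_sum]
        exact Finset.sum_congr rfl fun i _ => smul_comm _ _ _
      rw [this, hz, smul_zero]
    have hge : ∀ j : Fin m, z j.succ.succ = 0 := by
      intro j
      have h1 : b (∑ i, z i • ((2 : ℤ) • c i)) (F j.succ.succ) = 0 := by rw [hz2, hb.zero_left]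
      rw [hb.sum_left, Finset.sum_eq_single j.succ.succ] at h1
      · rw [hb.zsmul_left, h2, if_neg (Fin.succ_ne_zero _), hb.sub_left, hF.1,
          hF.2.1 0 j.succ.succ (Fin.succ_ne_zero _).symm] at h1
        have h3 : z j.succ.succ * s = 0 := by linarith
        rcases mul_eq_zero.mp h3 with h | h
        · exact h
        · omega
      · intro i _ hi
        rw [hb.zsmul_left, h2]
        by_cases hi0 : i = 0
        · rw [if_pos hi0, hb.add_left, hF.2.1 0 j.succ.succ (Fin.succ_ne_zero _).symm,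
            hF.2.1 1 j.succ.succ (by
              intro h
              have : (0 : Fin (m + 1)) = j.succ := by
                apply Fin.succ_injective
                rw [← h]
                rfl
              exact Fin.succ_ne_zero _ this.symm)]
          ring
        · rw [if_neg hi0, hb.sub_left, hF.2.1 0 j.succ.succ (Fin.succ_ne_zero _).symm,
            hF.2.1 i j.succ.succ hi]
          ring
      · intro h
        exact absurd (Finset.mem_univ _) h
    have hsum : z 0 • (F 0 + F 1) + z 1 • (F 0 - F 1) = 0 := by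
      rw [Fin.sum_univ_succ, Fin.sum_univ_succ] at hz2
      have e0 : ∑ i : Fin m, z i.succ.succ • ((2 : ℤ) • c i.succ.succ) = 0 := by
        apply Finset.sum_eq_zero
        intro i _
        rw [hge, zero_smul]
      rw [e0, add_zero, h2, h2, if_pos rfl, if_neg (Fin.succ_ne_zero _)] at hz2
      exact hz2
    have k0 : b (z 0 • (F 0 + F 1) + z 1 • (F 0 - F 1)) (F 0) = 0 := by
      rw [hsum, hb.zero_left]
    have k1 : b (z 0 • (F 0 + F 1) + z 1 • (F 0 - F 1)) (F 1) = 0 := by
      rw [hsum, hb.zero_left]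
    rw [hb.add_left, hb.zsmul_left, hb.zsmul_left, hb.add_left, hb.sub_left, hF.1,
      hF.2.1 1 0 h01.symm] at k0
    rw [hb.add_left, hb.zsmul_left, hb.zsmul_left, hb.add_left, hb.sub_left, hF.1,
      hF.2.1 0 1 h01] at k1
    have a0 : (z 0 + z 1) * s = 0 := by linarith
    have a1 : (z 0 - z 1) * s = 0 := by linarith
    have b0 : z 0 + z 1 = 0 := by
      rcases mul_eq_zero.mp a0 with h | h
      · exact h
      · omega
    have b1 : z 0 - z 1 = 0 := by
      rcases mul_eq_zero.mp a1 with h | h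
      · exact h
      · omega
    intro i
    refine Fin.cases ?_ (fun i => ?_) i
    · omega
    · refine Fin.cases ?_ (fun i => ?_) i
      · change z 1 = 0
        omega
      · exact hge i
  · intro i
    by_cases hi : i = 0
    · refine ⟨fun j => (if j = 0 then 1 else 0) + (if j = 1 then 1 else 0), ?_⟩
      rw [h2, if_pos hi]
      simp [add_smul, Finset.sum_add_distrib]
    · refine ⟨fun j => (if j = 0 then 1 else 0) - (if j = i then 1 else 0), ?_⟩
      rw [h2, if_neg hi]
      simp [sub_smul, Finset.sum_sub_distrib]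

theorem dfam (hb : PD b) (hs : 0 < s) {n : ℕ} (hn : 2 ≤ n) {F : Fin n → M}
    (hF : DFr b C s n F) : ∃ c : Fin n → M, (∀ i, c i ∈ C) ∧
      LinearIndependent ℤ c ∧ ∀ i, ∃ y : Fin n → ℤ, (2 : ℤ) • c i = ∑ j, y j • F j := by
  obtain ⟨m, rfl⟩ : ∃ m, n = m + 2 := ⟨n - 2, by omega⟩
  exact dfam' hb hs hF

theorem rkE (hb : PD b) (hC : Irr b C s) {n : ℕ} (hn : 2 ≤ n) (hn7 : n ≤ 7) {F : Fin n → M}
    (hF : DFr b C s n F) {α : M} (hα : α ∈ C) (hαF : ∀ i, b α (F i) = -s) : Rk C (n + 1) := by
  obtain ⟨c, hc, hl, hy⟩ := dfam hb hC.pos hn hF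
  refine ⟨Fin.cons α c, ?_, ?_⟩
  · intro i
    refine Fin.cases ?_ (fun i => ?_) i
    · exact hα
    · exact hc i
  · rw [Fintype.linearIndependent_iff] at hl ⊢
    intro z hz
    rw [Fin.sum_univ_succ] at hz
    simp only [Fin.cons_zero, Fin.cons_succ] at hz
    set w : M := (4 : ℤ) • α + ∑ j, F j with hw
    have hFw : ∀ j, b (F j) w = 0 := by
      intro j
      rw [hw, hb.add_right, hb.zsmul_right, hb.sum_right, hb.symm (F j) α, hαF,
        Finset.sum_eq_single j (fun i _ hi => hF.2.1 j i (Ne.symm hi))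
          (fun h => absurd (Finset.mem_univ _) h), hF.1]
      ring
    have hαw : b α w = (8 - n) * s := by
      rw [hw, hb.add_right, hb.zsmul_right, hb.sum_right, hC.norm α hα]
      simp only [hαF, Finset.sum_const, Finset.card_univ, Fintype.card_fin, nsmul_eq_mul]
      ring
    have hcw : ∀ i, b (c i) w = 0 := by
      intro i
      obtain ⟨y, hyi⟩ := hy i
      have h1 : b ((2 : ℤ) • c i) w = 0 := by
        rw [hyi, hb.sum_left]
        apply Finset.sum_eq_zero
        intro j _
        rw [hb.zsmul_left, hFw, mul_zero]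
      rw [hb.zsmul_left] at h1
      omega
    have h0 : z 0 = 0 := by
      have h1 : b (z 0 • α + ∑ i : Fin n, z i.succ • c i) w = 0 := by rw [hz, hb.zero_left]
      rw [hb.add_left, hb.zsmul_left, hb.sum_left, hαw] at h1
      have h2 : ∑ i : Fin n, b (z i.succ • c i) w = 0 := by
        apply Finset.sum_eq_zero
        intro j _
        rw [hb.zsmul_left, hcw, mul_zero]
      rw [h2, add_zero] at h1
      rcases mul_eq_zero.mp h1 with h | h
      · exact h
      · rcases mul_eq_zero.mp h with h | h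
        · omega
        · have := hC.pos
          omega
    rw [h0, zero_smul, zero_add] at hz
    intro i
    refine Fin.cases h0 (fun i => ?_) i
    exact hl (fun i => z i.succ) hz i

theorem rkE_le (hb : PD b) {n d : ℕ} {F : Fin n → M} {α : M}
    (hg : ∀ x ∈ AddSubgroup.closure C,
      x ∈ AddSubgroup.closure ({β | β ∈ C ∧ InD F β} ∪ {α})) (h : Rk C d) : d ≤ n + 1 := by
  obtain ⟨c, hc, hl⟩ := h
  have h2 : LinearIndependent ℤ (fun i => (2 : ℤ) • c i) := by
    rw [Fintype.linearIndependent_iff] at hl ⊢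
    intro z hz i
    have h3 := hl (fun i => z i * 2) (by
      rw [← hz]
      exact Finset.sum_congr rfl fun i _ => mul_smul _ _ _) i
    omega
  refine H9.card_le h2 (v := (Fin.cons α F : Fin (n + 1) → M)) fun i => ?_
  have key : ∀ x ∈ AddSubgroup.closure ({β | β ∈ C ∧ InD F β} ∪ {α}),
      (2 : ℤ) • x ∈ Submodule.span ℤ (Set.range (Fin.cons α F : Fin (n + 1) → M)) := by
    have hm : ∀ k, F k ∈ Submodule.span ℤ (Set.range (Fin.cons α F : Fin (n + 1) → M)) := fun k =>
      Submodule.subset_span ⟨k.succ, rfl⟩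
    have hα : α ∈ Submodule.span ℤ (Set.range (Fin.cons α F : Fin (n + 1) → M)) :=
      Submodule.subset_span ⟨0, rfl⟩
    intro x hx
    induction hx using AddSubgroup.closure_induction with
    | mem x hx =>
      rcases hx with ⟨_, k, l, _, h | h | h⟩ | h
      · rw [h]; exact Submodule.add_mem _ (hm k) (hm l)
      · rw [h]; exact Submodule.sub_mem _ (hm k) (hm l)
      · rw [h]; exact Submodule.neg_mem _ (Submodule.add_mem _ (hm k) (hm l))
      · rw [h]; exact Submodule.smul_mem _ _ hα
    | zero => rw [smul_zero]; exact Submodule.zero_mem _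
    | add x y _ _ hx hy => rw [smul_add]; exact Submodule.add_mem _ hx hy
    | neg x _ hx => rw [smul_neg]; exact Submodule.neg_mem _ hx
  exact key _ (hg _ (AddSubgroup.subset_closure (hc i)))

theorem t_rk (hRK : G_RK) : T_RK := by
  intro M _ b C s τ hb hC hτ k
  obtain ⟨g1, g2, g3, g4⟩ := hRK M b C s hb hC
  cases τ with
  | A n =>
    obtain ⟨_, v, hv, hv2⟩ := hτ
    constructor
    · intro h
      exact g3 n k v hv hv2 h
    · intro h
      exact rk_mono ⟨v, hv.1, g1 n v hv⟩ h
  | D n =>
    obtain ⟨hn, F, hF, hF2⟩ := hτ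
    constructor
    · intro h
      exact g4 n k F hF hF2 h
    · intro h
      obtain ⟨c, hc, hl, _⟩ := dfam hb hC.pos (by omega) hF
      exact rk_mono ⟨c, hc, hl⟩ h
  | E n =>
    obtain ⟨hn, F, α, hα, hF, hαF, hg⟩ := hτ
    have e : n - 1 + 1 = n := by omega
    constructor
    · intro h
      have := rkE_le hb hg h
      change k ≤ n
      omega
    · intro h
      have h1 := rkE hb hC (by omega) (by omega) hF hα hαF
      rw [e] at h1
      exact rk_mono h1 h

end Pool.Agent.CN2.H47

end
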