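import Pool.Agent.Helper25_CN2.Stmts
import Pool.Agent.Helper25_CON.PDLem

/-!
Squad CN2: module X_DEC, the components of a new root
-/

noncomputable section

namespace Pool.Agent.CN2.H47

open Pool.Agent.H25Cong Pool.Agent.CON Pool.Agent.CN2

variable {M : Type} [AddCommGroup M] {b : M → M → ℤ} {k : ℕ} {C : Fin k → Set M}
  {s : Fin k → ℤ} {τ : Fin k → Ty}

/-- the decomposition of a vector into components -/
lemma decomp (hC : CT b C s τ) (y : M) :
    ∃ z : Fin k → M, (∀ i, z i ∈ AddSubgroup.closure (C i)) ∧ y = ∑ i, z i := by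
  have hy := hC.gen y
  induction hy using AddSubgroup.closure_induction with
  | mem y hy =>
    classical
    obtain ⟨i, hi⟩ := Set.mem_iUnion.mp hy
    refine ⟨fun l => if l = i then y else 0, fun l => ?_, by simp⟩
    by_cases hl : l = i
    · subst hl; simpa using AddSubgroup.subset_closure hi
    · simp [hl, AddSubgroup.zero_mem]
  | zero => exact ⟨fun _ => 0, fun _ => AddSubgroup.zero_mem _, by simp⟩
  | add y y' _ _ hy hy' =>
    obtain ⟨z, hz, e⟩ := hy
    obtain ⟨z', hz', e'⟩ := hy'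
    exact ⟨fun i => z i + z' i, fun i => AddSubgroup.add_mem _ (hz i) (hz' i), by
      rw [e, e', ← Finset.sum_add_distrib]⟩
  | neg y _ hy =>
    obtain ⟨z, hz, e⟩ := hy
    exact ⟨fun i => - z i, fun i => AddSubgroup.neg_mem _ (hz i), by
      rw [e, ← Finset.sum_neg_distrib]⟩

lemma orth_closure (hb : PD b) (hC : CT b C s τ) {i j : Fin k} (hij : i ≠ j) :
    ∀ x ∈ AddSubgroup.closure (C i), ∀ y ∈ AddSubgroup.closure (C j), b x y = 0 :=
  hb.closure_orth fun x hx y hy => hC.orth i j hij x hx y hy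

/-- the product of a sum with a vector of one component -/
lemma sum_comp (hb : PD b) (hC : CT b C s τ) {z : Fin k → M}
    (hz : ∀ i, z i ∈ AddSubgroup.closure (C i)) {i : Fin k} {y : M}
    (hy : y ∈ AddSubgroup.closure (C i)) : b (∑ l, z l) y = b (z i) y := by
  rw [hb.sum_left]
  rw [Finset.sum_eq_single i (fun l _ hl => orth_closure hb hC hl _ (hz l) _ hy)
    (fun h => absurd (Finset.mem_univ _) h)]

/-- the norm of a sum -/
lemma sum_norm (hb : PD b) (hC : CT b C s τ) {z : Fin k → M}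
    (hz : ∀ i, z i ∈ AddSubgroup.closure (C i)) :
    b (∑ l, z l) (∑ l, z l) = ∑ i, b (z i) (z i) := by
  rw [hb.sum_right]
  exact Finset.sum_congr rfl fun i _ => sum_comp hb hC hz (hz i)

theorem x_dec : X_DEC := by
  intro M _ b k C s τ x t ρ hb hC hx ht
  obtain ⟨⟨z, hz⟩, hρ, hρ4, htt, hy⟩ := ht
  obtain ⟨w, hw, hwz⟩ := decomp hC z
  have hT : ∀ i, x i + (2 : ℤ) • w i ∈ AddSubgroup.closure (C i) := fun i =>
    AddSubgroup.add_mem _ (hx i) (AddSubgroup.zsmul_mem _ (hw i) 2)
  have htT : t = ∑ i, (x i + (2 : ℤ) • w i) := by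
    rw [hz, hwz, Finset.sum_add_distrib, Finset.smul_sum]
  refine ⟨fun i => x i + (2 : ℤ) • w i, htT, ?_, fun i => ⟨⟨w i, hw i, rfl⟩, hρ, hρ4, ?_⟩⟩
  · rw [← htt]
    have e := sum_norm hb hC hT
    rw [← htT] at e
    exact e
  · intro y hyi h2
    have e1 : b (∑ i, x i) y = b (x i) y := sum_comp hb hC hx hyi
    have e2 : b t y = b (x i + (2 : ℤ) • w i) y := by
      have e := sum_comp hb hC hT hyi
      rw [← htT] at e
      exact e
    rw [← e2]
    apply hy
    rw [e1]
    exact h2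

end Pool.Agent.CN2.H47

end
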